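import Pool.Agent.Helper30.EL.St

/-!
# Project EL, module FIN: the end
-/

set_option autoImplicit false

noncomputable section

namespace Pool.Agent.Helper29.EL

open Finset Filter Topology ArithmeticFunction Pool.Agent.Helper30.EL
open Pool.Agent.Helper9.TW (gm Qs fm StC9)
open Pool.Agent.Helper18.TR (StBonf StFLmain StLevel)
open Pool.Agent.Helper15.AB (Th StDB StMT)
open Pool.Agent.Helper60.GP (II IsB JJ Err StBVc StPNT StBump StM2)
open Pool.Agent.Helper48.BK (StSW)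
open Pool.Agent.Helper93.KS (bq Pq SW bmq idq ejq mg Gb Vq AD UQ LQ HU HL StBXQ StT1 StDK StCEL StBMQ StSQR StDUA)

/-! ### growth -/

private lemma log_pow_le (K : ℝ) (r : ℕ) (ε : ℝ) (hε : 0 < ε) :
    ∀ᶠ a : ℕ in atTop, K * Real.log a ^ r ≤ (a : ℝ) ^ ε := by
  have h := isLittleO_log_rpow_rpow_atTop (r : ℝ) hε
  have hK : 0 < 1 / (|K| + 1) := by positivity
  have h2 := (h.bound hK).and (eventually_ge_atTop (1 : ℝ))
  have h3 := tendsto_natCast_atTop_atTop.eventually h2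
  filter_upwards [h3] with a ha
  obtain ⟨h4, h5⟩ := ha
  have hl : 0 ≤ Real.log (a : ℝ) := Real.log_nonneg h5
  rw [Real.rpow_natCast, Real.norm_of_nonneg (by positivity), Real.norm_of_nonneg (by positivity),
    div_mul_eq_mul_div, one_mul, le_div_iff₀ (by positivity)] at h4
  calc K * Real.log a ^ r ≤ |K| * Real.log a ^ r := by
        gcongr
        exact le_abs_self K
    _ ≤ Real.log a ^ r * (|K| + 1) := by
        have : 0 ≤ Real.log (a : ℝ) ^ r := by positivity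
        nlinarith
    _ ≤ _ := h4

private lemma log_ge (K : ℝ) : ∀ᶠ a : ℕ in atTop, K ≤ Real.log a :=
  (Real.tendsto_log_atTop.comp tendsto_natCast_atTop_atTop).eventually_ge_atTop K

private lemma sqrt_tendsto : Tendsto Nat.sqrt atTop atTop := by
  refine tendsto_atTop.2 fun b => ?_
  filter_upwards [eventually_ge_atTop (b ^ 2)] with n hn
  exact Nat.le_sqrt'.2 hn

/-! ### the terms -/

private lemma V_le (u j0 a n c q : ℕ) (hu : 1 ≤ u) :
    q0 a ((j0 : ℝ) * (1 / (100 * u))) n c q * idq a (1 / (100 * u)) j0 (9 * u) (vv n c q) *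
      (1 - ∑ i ∈ Ico (9 * u) (46 * u), 61 / 100 * (1 - (i : ℝ) / (46 * u)) *
        (ejq a (1 / (100 * u)) i (vv n c q) : ℝ)) ≤ 1 := by
  have h1 : 0 ≤ q0 a ((j0 : ℝ) * (1 / (100 * u))) n c q ∧
      q0 a ((j0 : ℝ) * (1 / (100 * u))) n c q ≤ 1 := by
    unfold q0
    split_ifs <;> norm_num
  have h2 : 0 ≤ idq a (1 / (100 * u)) j0 (9 * u) (vv n c q) ∧
      idq a (1 / (100 * u)) j0 (9 * u) (vv n c q) ≤ 1 := by
    unfold idq
    split_ifs <;> norm_num
  have h3 : 0 ≤ ∑ i ∈ Ico (9 * u) (46 * u), 61 / 100 * (1 - (i : ℝ) / (46 * u)) *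
        (ejq a (1 / (100 * u)) i (vv n c q) : ℝ) := by
    refine Finset.sum_nonneg fun i hi => ?_
    have hi' : (i : ℝ) ≤ 46 * u := by
      have := (Finset.mem_Ico.1 hi).2
      exact_mod_cast this.le
    have hu' : (0 : ℝ) < 46 * u := by
      have : (0 : ℝ) < u := by exact_mod_cast hu
      positivity
    have h4 : (i : ℝ) / (46 * u) ≤ 1 := by
      rw [div_le_one hu']
      exact hi'
    have h5 : 0 ≤ 1 - (i : ℝ) / (46 * u) := by linarith
    positivity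
  have h12 : 0 ≤ q0 a ((j0 : ℝ) * (1 / (100 * u))) n c q *
      idq a (1 / (100 * u)) j0 (9 * u) (vv n c q) := mul_nonneg h1.1 h2.1
  have h12' : q0 a ((j0 : ℝ) * (1 / (100 * u))) n c q *
      idq a (1 / (100 * u)) j0 (9 * u) (vv n c q) ≤ 1 := mul_le_one₀ h1.2 h2.1 h2.2
  calc _ ≤ q0 a ((j0 : ℝ) * (1 / (100 * u))) n c q *
      idq a (1 / (100 * u)) j0 (9 * u) (vv n c q) * 1 :=
        mul_le_mul_of_nonneg_left (by linarith) h12
    _ ≤ 1 := by rw [mul_one]; exact h12'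

private lemma wq_nonneg {ω : ℝ → ℝ} (hω : IsB ω) (x : ℝ) (q : ℕ) : 0 ≤ wq ω x q :=
  mul_nonneg vonMangoldt_nonneg (hω.nonneg _)

private lemma wq_le {ω : ℝ → ℝ} (hω : IsB ω) (x : ℝ) (q : ℕ) (y : ℝ) (h1 : 1 ≤ q)
    (hy : (q : ℝ) ≤ y) : wq ω x q ≤ Real.log y := by
  have hq : (1 : ℝ) ≤ q := by exact_mod_cast h1
  have h2 : Λ q ≤ Real.log q := vonMangoldt_le_log
  have h3 : Real.log q ≤ Real.log y := Real.log_le_log (by linarith) hy
  have h4 : 0 ≤ Real.log (q : ℝ) := Real.log_nonneg hq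
  calc wq ω x q = Λ q * ω (Real.log (q / x)) := rfl
    _ ≤ Real.log q * (1 / 2) :=
        mul_le_mul h2 (hω.le_half _) (hω.nonneg _) h4
    _ ≤ Real.log y := by linarith

private lemma wq_supp {ω : ℝ → ℝ} (hω : IsB ω) (x : ℝ) (hx : 0 < x) (q : ℕ) (hq : 1 ≤ q)
    (h : 0 < wq ω x q) : x ≤ q := by
  have h1 : ω (Real.log (q / x)) ≠ 0 := by
    intro h0
    unfold wq at h
    rw [h0, mul_zero] at h
    exact lt_irrefl _ h
  have h2 : Real.log (q / x) ∈ Set.Icc (0 : ℝ) 1 := by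
    by_contra hc
    exact h1 (hω.supp _ hc)
  have hq' : (0 : ℝ) < q := by exact_mod_cast hq
  by_contra hlt
  push Not at hlt
  have h3 : Real.log (q / x) < 0 := Real.log_neg (by positivity) ((div_lt_one hx).2 hlt)
  linarith [h2.1]

/-! ### the end -/

/-- the final count, with all the numbers fixed -/
private lemma count (hS : StPSE) (hK : StKSI) {ω : ℝ → ℝ} (hω : IsB ω) (u j0 : ℕ) (hu1 : 1 ≤ u)
    (hj50 : 50 ≤ j0) (hj9 : j0 ≤ 9 * u) : ∃ (CS : ℝ) (a₄ : ℕ), 0 < CS ∧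
    ∀ (a n s b : ℕ) (x A : ℝ), a₄ ≤ a → 3 ≤ a → a ^ 2 ≤ n → n < (a + 1) ^ 2 → s.Prime →
      Nat.Coprime (s ^ 2 + s + 1) (2 * n) → s ^ 2 + s + 1 ≤ a → x = a / (3 * s) → (s : ℝ) < x →
      (∀ q : ℕ, q % 30 = b → Nat.Coprime (vv n (s ^ 2 + s + 1) q) 30) →
      A ≤ ∑ q ∈ PB x b, wq ω x q * (q0 a ((j0 : ℝ) * (1 / (100 * u))) n (s ^ 2 + s + 1) q *
        idq a (1 / (100 * u)) j0 (9 * u) (vv n (s ^ 2 + s + 1) q) *
        (1 - ∑ i ∈ Ico (9 * u) (46 * u), 61 / 100 * (1 - (i : ℝ) / (46 * u)) *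
          (ejq a (1 / (100 * u)) i (vv n (s ^ 2 + s + 1) q) : ℝ))) →
      A / Real.log a - CS * (a : ℝ) ^ (95 / 100 : ℝ) ≤ ((kk n).card : ℝ) := by
  classical
  obtain ⟨CS, hCS, hPS⟩ := hS
  obtain ⟨a₄, hK⟩ := hK
  refine ⟨CS, a₄, hCS, ?_⟩
  intro a n s b x A ha4 ha3 han hna hs hc hca hx hsx hb hA
  have hs1 : 1 ≤ s := hs.one_lt.le
  have hsr : (1 : ℝ) ≤ s := by exact_mod_cast hs1
  have har : (3 : ℝ) ≤ a := by exact_mod_cast ha3
  have hx0 : 0 < x := by linarith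
  have hla : 0 < Real.log a := Real.log_pos (by linarith)
  have h3x : 3 * x = a / s := by
    rw [hx]
    field_simp
  have h3xa : 3 * x ≤ a := by
    rw [h3x]
    exact div_le_self (by linarith) hsr
  have hna3 : n ≤ a ^ 3 := by
    have : (a + 1) ^ 2 ≤ a ^ 3 := by nlinarith
    omega
  -- the term
  obtain ⟨T, hT⟩ : ∃ T : ℕ → ℝ, T = fun q => q0 a ((j0 : ℝ) * (1 / (100 * u))) n (s ^ 2 + s + 1) q *
        idq a (1 / (100 * u)) j0 (9 * u) (vv n (s ^ 2 + s + 1) q) *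
        (1 - ∑ i ∈ Ico (9 * u) (46 * u), 61 / 100 * (1 - (i : ℝ) / (46 * u)) *
          (ejq a (1 / (100 * u)) i (vv n (s ^ 2 + s + 1) q) : ℝ)) := ⟨_, rfl⟩
  have hT1 : ∀ q, T q ≤ 1 := by
    intro q
    rw [hT]
    exact V_le u j0 a n (s ^ 2 + s + 1) q hu1
  have hA' : A ≤ ∑ q ∈ PB x b, wq ω x q * T q := by
    rw [hT]
    exact hA
  have hPB : ∀ q ∈ PB x b, 1 ≤ q ∧ (q : ℝ) ≤ 3 * x ∧ q.Prime ∧ q % 30 = b := by
    intro q hq
    unfold PB II at hq
    rw [Finset.mem_filter, Finset.mem_Icc] at hq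
    refine ⟨hq.1.1, ?_, hq.2.1, hq.2.2⟩
    have h := hq.1.2
    rwa [Nat.le_floor_iff (by positivity)] at h
  obtain ⟨P, hP⟩ : ∃ P, P = (PB x b).filter (fun q => 0 < wq ω x q * T q) := ⟨_, rfl⟩
  have hsum : ∑ q ∈ PB x b, wq ω x q * T q ≤ (P.card : ℝ) * Real.log a := by
    calc ∑ q ∈ PB x b, wq ω x q * T q
        ≤ ∑ q ∈ PB x b, (if 0 < wq ω x q * T q then Real.log a else 0) := by
          refine Finset.sum_le_sum fun q hq => ?_
          obtain ⟨q1, q2, -, -⟩ := hPB q hq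
          split_ifs with h
          · have w1 := wq_le hω x q a q1 (q2.trans h3xa)
            calc wq ω x q * T q ≤ wq ω x q * 1 :=
                  mul_le_mul_of_nonneg_left (hT1 q) (wq_nonneg hω x q)
              _ ≤ Real.log a := by rw [mul_one]; exact w1
          · exact not_lt.1 h
      _ = ∑ q ∈ P, Real.log a := by
          rw [hP, Finset.sum_filter]
      _ = (P.card : ℝ) * Real.log a := by
          rw [Finset.sum_const, nsmul_eq_mul]
  have hPc : A / Real.log a ≤ (P.card : ℝ) := by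
    rw [div_le_iff₀ hla]
    exact hA'.trans hsum
  obtain ⟨B, hB⟩ : ∃ B, B = (Icc 1 a).filter (fun q => ∃ p : ℕ, p.Prime ∧
    (a : ℝ) ^ (9 / 100 : ℝ) ≤ (p : ℝ) ∧ (p : ℝ) ≤ (a : ℝ) ^ (9 / 10 : ℝ) ∧
    p ^ 2 ∣ vv n (s ^ 2 + s + 1) q) := ⟨_, rfl⟩
  have hBc : (B.card : ℝ) ≤ CS * (a : ℝ) ^ (95 / 100 : ℝ) := by
    have h := hPS a n (s ^ 2 + s + 1) (by omega) hc (by omega) hca hna3
    rw [hB]
    convert h using 3
  have hmap : ((P \ B).card : ℝ) ≤ ((kk n).card : ℝ) := by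
    have : (P \ B).card ≤ (kk n).card := by
      refine Finset.card_le_card_of_injOn (fun q => (s * q) ^ 2) ?_ ?_
      · intro q hq
        have hq' : q ∈ P \ B := hq
        rw [Finset.mem_sdiff] at hq'
        obtain ⟨hqP, hqB⟩ := hq'
        rw [hP, Finset.mem_filter] at hqP
        obtain ⟨hqPB, hpos⟩ := hqP
        obtain ⟨q1, q2, q3, q4⟩ := hPB q hqPB
        have hw : 0 < wq ω x q := by
          rcases (wq_nonneg hω x q).lt_or_eq with h | h
          · exact h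
          · rw [← h, zero_mul] at hpos
            exact absurd hpos (lt_irrefl _)
        have hTq : 0 < T q := by
          by_contra hc'
          push Not at hc'
          have : wq ω x q * T q ≤ 0 := mul_nonpos_of_nonneg_of_nonpos hw.le hc'
          linarith
        have hxq := wq_supp hω x hx0 q q1 hw
        have hsq : s < q := by
          have : (s : ℝ) < q := by linarith
          exact_mod_cast this
        have hsqa : s * q ≤ a := by
          have h1 : (q : ℝ) ≤ a / s := by rw [← h3x]; exact q2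
          rw [le_div_iff₀ (by linarith)] at h1
          have : ((s * q : ℕ) : ℝ) ≤ (a : ℝ) := by
            push_cast
            linarith
          exact_mod_cast this
        have hqa : q ≤ a := by nlinarith
        have hnb : ∀ p : ℕ, p.Prime → (p : ℝ) ≤ (a : ℝ) ^ (9 / 10 : ℝ) →
            (a : ℝ) ^ (9 / 100 : ℝ) ≤ (p : ℝ) → ¬ p ^ 2 ∣ vv n (s ^ 2 + s + 1) q := by
          intro p hp h1 h2 hdiv
          apply hqB
          rw [hB, Finset.mem_filter]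
          exact ⟨Finset.mem_Icc.2 ⟨q1, hqa⟩, p, hp, h2, h1, hdiv⟩
        rw [hT] at hTq
        exact hK u j0 a n s q b ha4 han hna hu1 hj50 hj9 hs q3 hsq hsqa hc q4 hb hnb hTq
      · intro q _ q' _ h
        have h' : (s * q) ^ 2 = (s * q') ^ 2 := h
        have h2 : s * q = s * q' := Nat.pow_left_injective (by norm_num) h'
        exact Nat.eq_of_mul_eq_mul_left (by omega) h2
    exact_mod_cast this
  have hsd : (P.card : ℝ) - (B.card : ℝ) ≤ ((P \ B).card : ℝ) := by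
    have h := Finset.le_card_sdiff B P
    have h2 : P.card ≤ (P \ B).card + B.card := by omega
    have h3 : (P.card : ℝ) ≤ ((P \ B).card : ℝ) + (B.card : ℝ) := by exact_mod_cast h2
    linarith
  linarith

theorem hFIN (hQ : StCQE) (hF : StFSE) (hS : StPSE) (hE : StSEL) (hO : StONE) (hG : StGNE)
    (h3 : StB30) (hK : StKSI) (hu : StBump) : StFIN := by
  classical
  obtain ⟨ω, hω, hJ, -⟩ := hu 1 one_pos
  obtain ⟨u, j0, hu1, hj50, hj9, η, c₀, hη, hc₀, a₁, hCQ⟩ :=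
    hQ 9 46 48 (61 / 100) (by norm_num) (by norm_num) (by norm_num) (by norm_num) (by norm_num)
      hF ω hω hJ
  obtain ⟨C₁, hE⟩ := hE
  obtain ⟨K, a₂, hON⟩ := hO (2 * C₁ + 1) u j0 (46 * u) (η / 4) hu1 (by omega) (by linarith)
  obtain ⟨n₁, hE⟩ := hE K
  obtain ⟨a₃, hGN⟩ := hG u j0 (46 * u) η hu1 (by omega) hη
  obtain ⟨CS, a₄, hCS, hcnt⟩ := count hS hK hω u j0 hu1 hj50 hj9
  refine ⟨C₁ + 5, ?_⟩
  rw [← Filter.eventually_atTop]
  have hsq := sqrt_tendsto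
  filter_upwards [eventually_ge_atTop n₁, log_ge (12 / c₀),
    hsq.eventually (eventually_ge_atTop (max (max a₁ a₂) (max a₃ a₄))),
    hsq.eventually (eventually_ge_atTop 3),
    hsq.eventually (log_ge (3 ^ (2 * C₁ + 1))),
    hsq.eventually (log_pow_le 1 (2 * C₁ + 1) 1 one_pos),
    hsq.eventually (log_pow_le (3 * 3 ^ C₁) C₁ (1 / 1000) (by norm_num)),
    hsq.eventually (log_pow_le (6 * CS / c₀ * 3 ^ (C₁ + 4)) (C₁ + 4) (5 / 100) (by norm_num))]
    with n hn1 hlc hamax ha3 hl1 hl2 hl3 hl4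
  obtain ⟨a, ha⟩ : ∃ a, a = Nat.sqrt n := ⟨_, rfl⟩
  rw [← ha] at hamax ha3 hl1 hl2 hl3 hl4
  have han : a ^ 2 ≤ n := by rw [ha]; exact Nat.sqrt_le' n
  have hna : n < (a + 1) ^ 2 := by rw [ha]; exact Nat.lt_succ_sqrt' n
  have ha1 : a₁ ≤ a := ((le_max_left _ _).trans (le_max_left _ _)).trans hamax
  have ha2 : a₂ ≤ a := ((le_max_right _ _).trans (le_max_left _ _)).trans hamax
  have ha3' : a₃ ≤ a := ((le_max_left _ _).trans (le_max_right _ _)).trans hamax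
  have ha4 : a₄ ≤ a := ((le_max_right _ _).trans (le_max_right _ _)).trans hamax
  have har : (3 : ℝ) ≤ a := by exact_mod_cast ha3
  have hna3 : n ≤ a ^ 3 := by
    have : (a + 1) ^ 2 ≤ a ^ 3 := by nlinarith
    omega
  have hann : a ≤ n := by nlinarith
  have hla : 0 < Real.log a := Real.log_pos (by linarith)
  have hlan : Real.log a ≤ Real.log n := by
    apply Real.log_le_log (by linarith)
    exact_mod_cast hann
  have hln : 0 < Real.log n := lt_of_lt_of_le hla hlan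
  have hnr : (0 : ℝ) < n := by
    have : 0 < n := by omega
    exact_mod_cast this
  have hlna : Real.log n ≤ 3 * Real.log a := by
    have h1 : (n : ℝ) ≤ (a : ℝ) ^ 3 := by exact_mod_cast hna3
    have h2 := Real.log_le_log hnr h1
    rwa [Real.log_pow] at h2
  -- the numbers `s`
  obtain ⟨E, hEc, hEs⟩ := hE n hn1
  have hsle : ∀ s ∈ E, (s : ℝ) ≤ 3 ^ C₁ * Real.log a ^ C₁ := by
    intro s hs
    refine (hEs s hs).2.1.trans ?_
    rw [← mul_pow]
    exact pow_le_pow_left₀ hln.le hlna C₁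
  have hcle : ∀ s ∈ E, ((s ^ 2 + s + 1 : ℕ) : ℝ) ≤ Real.log a ^ (2 * C₁ + 1) := by
    intro s hs
    have h1 : (1 : ℝ) ≤ s := by exact_mod_cast (hEs s hs).1.one_lt.le
    have h2 := hsle s hs
    have h2' : (s : ℝ) ^ 2 ≤ (3 ^ C₁ * Real.log a ^ C₁) ^ 2 :=
      pow_le_pow_left₀ (by linarith) h2 2
    calc ((s ^ 2 + s + 1 : ℕ) : ℝ) = (s : ℝ) ^ 2 + s + 1 := by push_cast; ring
      _ ≤ 3 * (s : ℝ) ^ 2 := by nlinarith
      _ ≤ 3 * (3 ^ C₁ * Real.log a ^ C₁) ^ 2 := by linarith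
      _ = 3 ^ (2 * C₁ + 1) * Real.log a ^ (2 * C₁) := by
          rw [mul_pow, ← pow_mul, ← pow_mul, mul_comm C₁ 2, pow_succ]
          ring
      _ ≤ Real.log a * Real.log a ^ (2 * C₁) := by
          gcongr
      _ = Real.log a ^ (2 * C₁ + 1) := by rw [pow_succ]; ring
  have hcop : ∀ s ∈ E, Nat.Coprime (s ^ 2 + s + 1) (2 * n) := fun s hs => (hEs s hs).2.2
  have hinj : Set.InjOn (fun s : ℕ => s ^ 2 + s + 1) (E : Set ℕ) := by
    intro s _ t _ h
    have h' : s ^ 2 + s + 1 = t ^ 2 + t + 1 := h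
    rcases Nat.lt_trichotomy s t with hlt | heq | hgt
    · nlinarith
    · exact heq
    · nlinarith
  obtain ⟨c, hcE, hcs⟩ := hON a n (E.image fun s => s ^ 2 + s + 1) ha2 han hna
    (by rw [Finset.card_image_of_injOn hinj]; exact hEc)
    (by
      intro c hc
      obtain ⟨s, hs, hsc⟩ := Finset.mem_image.1 hc
      rw [← hsc]
      exact ⟨hcop s hs, by omega, hcle s hs⟩)
  obtain ⟨s, hs, hsc⟩ := Finset.mem_image.1 hcE
  have hsc' : s ^ 2 + s + 1 = c := hsc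
  rw [← hsc'] at hcs
  have hsp : s.Prime := (hEs s hs).1
  have hs1 : (1 : ℝ) ≤ s := by exact_mod_cast hsp.one_lt.le
  have hca : s ^ 2 + s + 1 ≤ a := by
    have hl2' : Real.log a ^ (2 * C₁ + 1) ≤ (a : ℝ) := by
      rw [one_mul, Real.rpow_one] at hl2
      exact hl2
    have h1 : ((s ^ 2 + s + 1 : ℕ) : ℝ) ≤ (a : ℝ) := (hcle s hs).trans hl2'
    exact_mod_cast h1
  have hGNc := hGN a n (s ^ 2 + s + 1) ha3' hna (by omega) hca (hcop s hs)
    (fun i hi => (le_abs_self _).trans (hcs i hi))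
  obtain ⟨b, hb30, hbc, hb⟩ := h3 n (s ^ 2 + s + 1) (hcop s hs)
  -- the range
  obtain ⟨x, hx⟩ : ∃ x : ℝ, x = a / (3 * s) := ⟨_, rfl⟩
  have h3s : 3 * (s : ℝ) ≤ (a : ℝ) ^ (1 / 1000 : ℝ) := by
    have h1 := hsle s hs
    calc 3 * (s : ℝ) ≤ 3 * (3 ^ C₁ * Real.log a ^ C₁) := by linarith
      _ = 3 * 3 ^ C₁ * Real.log a ^ C₁ := by ring
      _ ≤ _ := hl3
  have hxlow : (a : ℝ) ^ (999 / 1000 : ℝ) ≤ x := by
    rw [hx, le_div_iff₀ (by positivity)]
    calc (a : ℝ) ^ (999 / 1000 : ℝ) * (3 * s)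
        ≤ (a : ℝ) ^ (999 / 1000 : ℝ) * (a : ℝ) ^ (1 / 1000 : ℝ) := by gcongr
      _ = (a : ℝ) := by
          rw [← Real.rpow_add (by linarith)]
          norm_num
  have hxa : x ≤ a := by
    rw [hx]
    exact div_le_self (by linarith) (by linarith)
  have hsx : (s : ℝ) < x := by
    have h1 : (a : ℝ) ^ (1 / 1000 : ℝ) ≤ (a : ℝ) ^ (999 / 1000 : ℝ) :=
      Real.rpow_le_rpow_of_exponent_le (by linarith) (by norm_num)
    linarith
  have hmain := hCQ a n (s ^ 2 + s + 1) b x ha1 (hcop s hs) hb30 hbc hxlow hxa hGNc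
  simp only [Nat.cast_ofNat] at hmain
  have hcard := hcnt a n s b x (c₀ * x / Real.log a ^ 3) ha4 ha3 han hna hsp (hcop s hs) hca hx hsx
    hb hmain
  refine le_trans ?_ hcard
  -- the final inequality
  obtain ⟨L, hL⟩ : ∃ L, L = Real.log n := ⟨_, rfl⟩
  obtain ⟨l, hl⟩ : ∃ l, l = Real.log a := ⟨_, rfl⟩
  rw [← hL] at hlc hlan hln hlna
  rw [← hl] at hla hlan hlna hl4
  rw [← hL, ← hl]
  have hsL : (s : ℝ) ≤ L ^ C₁ := by rw [hL]; exact (hEs s hs).2.1
  have hsn : √(n : ℝ) ≤ 2 * a := by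
    have h1 : √(n : ℝ) ≤ a + 1 := by
      rw [Real.sqrt_le_left (by positivity)]
      have : n ≤ (a + 1) ^ 2 := hna.le
      exact_mod_cast this
    linarith
  have hLC : 0 < L ^ (C₁ + 4) := by positivity
  have e1 : c₀ * a / (3 * L ^ (C₁ + 4)) ≤ c₀ * x / l ^ 3 / l := by
    rw [hx, div_div, ← pow_succ]
    have e2 : c₀ * (a / (3 * (s : ℝ))) / l ^ (3 + 1) = c₀ * a / (3 * (s * l ^ 4)) := by
      have : (s : ℝ) ≠ 0 := by linarith
      field_simp
    rw [e2]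
    apply div_le_div_of_nonneg_left (by positivity) (by positivity)
    have e3 : (s : ℝ) * l ^ 4 ≤ L ^ C₁ * L ^ 4 :=
      mul_le_mul hsL (pow_le_pow_left₀ hla.le hlan 4) (by positivity) (by positivity)
    rw [pow_add]
    linarith
  have e4 : CS * (a : ℝ) ^ (95 / 100 : ℝ) ≤ c₀ * a / (6 * L ^ (C₁ + 4)) := by
    rw [le_div_iff₀ (by positivity)]
    have e5 : L ^ (C₁ + 4) ≤ 3 ^ (C₁ + 4) * l ^ (C₁ + 4) := by
      rw [← mul_pow]
      exact pow_le_pow_left₀ hln.le hlna _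
    have e6 : CS * 6 * (3 ^ (C₁ + 4) * l ^ (C₁ + 4)) ≤ c₀ * (a : ℝ) ^ (5 / 100 : ℝ) := by
      have e7 : CS * 6 * (3 ^ (C₁ + 4) * l ^ (C₁ + 4)) =
          c₀ * (6 * CS / c₀ * 3 ^ (C₁ + 4) * l ^ (C₁ + 4)) := by
        field_simp
      rw [e7]
      gcongr
    calc CS * (a : ℝ) ^ (95 / 100 : ℝ) * (6 * L ^ (C₁ + 4))
        = (a : ℝ) ^ (95 / 100 : ℝ) * (CS * 6 * L ^ (C₁ + 4)) := by ring
      _ ≤ (a : ℝ) ^ (95 / 100 : ℝ) * (CS * 6 * (3 ^ (C₁ + 4) * l ^ (C₁ + 4))) := by gcongr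
      _ ≤ (a : ℝ) ^ (95 / 100 : ℝ) * (c₀ * (a : ℝ) ^ (5 / 100 : ℝ)) := by gcongr
      _ = c₀ * ((a : ℝ) ^ (95 / 100 : ℝ) * (a : ℝ) ^ (5 / 100 : ℝ)) := by ring
      _ = c₀ * a := by
          rw [← Real.rpow_add (by linarith)]
          norm_num
  have e8 : √(n : ℝ) / L ^ (C₁ + 5) ≤ c₀ * a / (6 * L ^ (C₁ + 4)) := by
    have e9 : 12 ≤ c₀ * L := by
      rw [div_le_iff₀ hc₀] at hlc
      linarith
    rw [div_le_div_iff₀ (by positivity) (by positivity)]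
    have e10 : L ^ (C₁ + 5) = L ^ (C₁ + 4) * L := by rw [← pow_succ]
    rw [e10]
    calc √(n : ℝ) * (6 * L ^ (C₁ + 4)) ≤ (2 * a) * (6 * L ^ (C₁ + 4)) := by gcongr
      _ = 12 * (a * L ^ (C₁ + 4)) := by ring
      _ ≤ (c₀ * L) * (a * L ^ (C₁ + 4)) := by gcongr
      _ = c₀ * a * (L ^ (C₁ + 4) * L) := by ring
  have e11 : c₀ * a / (3 * L ^ (C₁ + 4)) = c₀ * a / (6 * L ^ (C₁ + 4)) + c₀ * a / (6 * L ^ (C₁ + 4)) := by
    field_simp
    ring
  linarith

end Pool.Agent.Helper29.EL
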